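import Pool.Agent.Helper9.MP.Lib

/-!
# MP_bde085_nt, module AMPZ: amplified pointwise bound at good points
-/

set_option autoImplicit false

namespace Pool.Agent.Helper96.MP

open Complex MeasureTheory Filter Topology
open scoped MatrixGroups

theorem ampz_tn {n : ℕ} {t : ℕ × ℕ × ℕ} (h : t ∈ Tn n) : t.1 * t.2.2 = n ∧ t.2.1 < t.2.2 := by
  unfold Tn at h
  exact (Finset.mem_filter.mp h).2

theorem ampz_pj {p j : ℕ} (hp : p.Prime) {t : ℕ × ℕ × ℕ} (h : t ∈ Pj p j) :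
    t.1 * t.2.2 = p ^ j ∧ 0 < t.1 ∧ 0 < t.2.2 := by
  unfold Pj at h
  have h1 := ampz_tn (Finset.mem_filter.mp h).1
  have h2 : 0 < p ^ j := pow_pos hp.pos j
  refine ⟨h1.1, ?_, ?_⟩
  · rcases Nat.eq_zero_or_pos t.1 with h0 | h0
    · have := h1.1
      rw [h0, zero_mul] at this
      omega
    · exact h0
  · omega

theorem ampz_act_im (t : ℕ × ℕ × ℕ) (z : ℂ) :
    (act t z).im = (t.1 : ℝ) * z.im / (t.2.2 : ℝ) := by
  unfold act
  rw [Complex.div_natCast_im]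
  simp

theorem ampz_act_mem {p j : ℕ} (hp : p.Prime) {t : ℕ × ℕ × ℕ} (h : t ∈ Pj p j) {z : ℂ}
    (hz : z ∈ UH) : act t z ∈ UH := by
  obtain ⟨-, h1, h2⟩ := ampz_pj hp h
  have hz' : 0 < z.im := hz
  have h1' : (0 : ℝ) < t.1 := by exact_mod_cast h1
  have h2' : (0 : ℝ) < t.2.2 := by exact_mod_cast h2
  show 0 < (act t z).im
  rw [ampz_act_im]
  positivity

theorem ampz_ball {c : ℂ} (hc : c ∈ UH) : Metric.ball c (c.im / 10) ⊆ UH := by
  intro z hz
  have hc' : 0 < c.im := hc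
  rw [Metric.mem_ball, Complex.dist_eq] at hz
  have h1 := Complex.abs_im_le_norm (z - c)
  rw [Complex.sub_im] at h1
  have h2 := neg_abs_le (z.im - c.im)
  show 0 < z.im
  linarith

/-- module AMPZ -/
theorem st_AMPZ (hHPE : ST_HPE) (hHPC : ST_HPC) (hSUMB : ST_SUMB) (hSEP : ST_SEP)
    (hFOLD : ST_FOLD) (hMV : ST_MV) (hQD : ST_QDIF) : ST_AMPZ := by
  refine ⟨6400 / Real.pi, by positivity, ?_⟩
  intro N p J b α hN hp hb hT z0 hz0 hbad
  have hy : 0 < z0.im := hz0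
  obtain ⟨S, hS⟩ : ∃ S : Finset (ℕ × ℕ × ℕ), S = (Finset.range (J + 1)).biUnion (Pj p) := ⟨_, rfl⟩
  have hSm : ∀ t, t ∈ S ↔ ∃ j ≤ J, t ∈ Pj p j := by
    intro t
    rw [hS, Finset.mem_biUnion]
    constructor
    · rintro ⟨j, hj, ht⟩
      exact ⟨j, by rw [Finset.mem_range] at hj; omega, ht⟩
    · rintro ⟨j, hj, ht⟩
      exact ⟨j, by rw [Finset.mem_range]; omega, ht⟩
  have hUH : ∀ t ∈ S, act t z0 ∈ UH := by
    intro t ht
    obtain ⟨j, -, ht'⟩ := (hSm t).mp ht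
    exact ampz_act_mem hp ht' hz0
  -- folding
  have hfold := hFOLD N b hN hb {t // t ∈ S}
    (fun t => Metric.ball (act t.1 z0) ((act t.1 z0).im / 10)) 2
    (fun t => measurableSet_ball) (fun t => ampz_ball (hUH t.1 t.2)) (by
      intro ζ hζ
      obtain ⟨h1, h2⟩ := hSEP N p J hN hp z0 hz0 hbad ζ hζ
      obtain ⟨φ, hφ⟩ : ∃ φ : SL(2, ℤ) × {t // t ∈ S} → SL(2, ℤ) × (ℕ × ℕ × ℕ),
        φ = fun u => (u.1, u.2.1) := ⟨_, rfl⟩
      have hinj : Function.Injective φ := by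
        intro u v huv
        rw [hφ] at huv
        simp only [Prod.mk.injEq] at huv
        exact Prod.ext huv.1 (Subtype.ext huv.2)
      have hmaps : ∀ u ∈ {u : SL(2, ℤ) × {t // t ∈ S} | u.1 ∈ CongruenceSubgroup.Gamma0 N ∧
          mob u.1 ζ ∈ Metric.ball (act u.2.1 z0) ((act u.2.1 z0).im / 10)}, φ u ∈
          {u : SL(2, ℤ) × (ℕ × ℕ × ℕ) | u.1 ∈ CongruenceSubgroup.Gamma0 N ∧
            (∃ j ≤ J, u.2 ∈ Pj p j) ∧
            mob u.1 ζ ∈ Metric.ball (act u.2 z0) ((act u.2 z0).im / 10)} := by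
        rintro ⟨g, t, ht⟩ ⟨hu1, hu2⟩
        rw [hφ]
        exact ⟨hu1, (hSm t).mp ht, hu2⟩
      constructor
      · exact Set.Finite.of_finite_image (h1.subset (Set.image_subset_iff.mpr hmaps))
          hinj.injOn
      · exact (Set.ncard_le_ncard_of_injOn φ hmaps hinj.injOn h1).trans h2)
  obtain ⟨hint, hsum⟩ := hfold
  -- mean values
  obtain ⟨A, hA⟩ : ∃ A : ℕ × ℕ × ℕ → ℝ, A = fun t => (act t z0).im ^ 2 * ‖qs b (act t z0)‖ ^ 2 :=
    ⟨_, rfl⟩
  have hmv : ∀ t : {t // t ∈ S}, A t.1 * (Real.pi / 100) ≤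
      ∫ z in Metric.ball (act t.1 z0) ((act t.1 z0).im / 10), ‖qs b z‖ ^ 2 := by
    intro t
    have hc := hUH t.1 t.2
    have hc' : 0 < (act t.1 z0).im := hc
    have h1 := hMV (qs b) (act t.1 z0) ((act t.1 z0).im / 10) (by positivity)
      ((hQD N b hN hb).2.1.mono (ampz_ball hc)) (hint t)
    refine le_trans (le_of_eq ?_) h1
    rw [hA]
    ring
  have hAS : (∑ t ∈ S, A t) * (Real.pi / 100) ≤ 2 * nrm N b := by
    have h1 : ∑ t : {t // t ∈ S}, A t.1 * (Real.pi / 100) ≤ 2 * nrm N b := by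
      refine le_trans (Finset.sum_le_sum (fun t _ => hmv t)) ?_
      have := hsum
      push_cast at this
      exact this
    rw [← Finset.sum_mul] at h1
    have h2 : ∑ t : {t // t ∈ S}, A t.1 = ∑ t ∈ S, A t := by
      rw [← Finset.attach_eq_univ]
      exact Finset.sum_attach S A
    rwa [h2] at h1
  -- Hecke relations
  have hj : ∀ j : ℕ, bet p α j ^ 2 / (p : ℝ) ^ j * (z0.im ^ 2 * ‖qs b z0‖ ^ 2) ≤
      2 * ∑ t ∈ Pj p j, A t := by
    intro j
    have h1 := hHPE N p b α hN hp hb hT j z0 hz0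
    have h2 : |bet p α j| * (z0.im * ‖qs b z0‖) ≤
        ∑ t ∈ Pj p j, (act t z0).im * ‖qs b (act t z0)‖ := by
      have h3 : ‖(bet p α j : ℂ) * ((z0.im : ℂ) * qs b z0)‖ = |bet p α j| * (z0.im * ‖qs b z0‖) := by
        rw [norm_mul, norm_mul, Complex.norm_real, Complex.norm_real, Real.norm_eq_abs,
          Real.norm_of_nonneg hy.le]
      rw [← h3, ← h1]
      refine (norm_sum_le _ _).trans (le_of_eq ?_)
      apply Finset.sum_congr rfl
      intro t ht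
      have hc : 0 < (act t z0).im := ampz_act_mem hp ht hz0
      rw [norm_mul, Complex.norm_real, Real.norm_of_nonneg hc.le]
    have h4 : (|bet p α j| * (z0.im * ‖qs b z0‖)) ^ 2 ≤ ((Pj p j).card : ℝ) * ∑ t ∈ Pj p j, A t := by
      refine (pow_le_pow_left₀ (by positivity) h2 2).trans ?_
      refine (sq_sum_le_card_mul_sum_sq (s := Pj p j)
        (f := fun t => (act t z0).im * ‖qs b (act t z0)‖)).trans (le_of_eq ?_)
      congr 1
      apply Finset.sum_congr rfl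
      intro t _
      rw [hA]
      ring
    have h5 : 0 ≤ ∑ t ∈ Pj p j, A t := by
      apply Finset.sum_nonneg
      intro t _
      rw [hA]
      positivity
    have hp0 : (0 : ℝ) < (p : ℝ) ^ j := pow_pos (by exact_mod_cast hp.pos) j
    have h6 : (|bet p α j| * (z0.im * ‖qs b z0‖)) ^ 2 =
        bet p α j ^ 2 * (z0.im ^ 2 * ‖qs b z0‖ ^ 2) := by
      rw [mul_pow, mul_pow, sq_abs]
    have h7 := mul_le_mul_of_nonneg_right (hHPC p j hp).1 h5
    rw [div_mul_eq_mul_div, div_le_iff₀ hp0]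
    rw [h6] at h4
    linarith
  -- disjointness
  have hdisj : ∑ j ∈ Finset.range (J + 1), ∑ t ∈ Pj p j, A t = ∑ t ∈ S, A t := by
    rw [hS, Finset.sum_biUnion]
    intro i _ j _ hij
    rw [Function.onFun, Finset.disjoint_left]
    intro t hti htj
    apply hij
    have h1 := (ampz_pj hp hti).1
    have h2 := (ampz_pj hp htj).1
    rw [h1] at h2
    exact Nat.pow_right_injective hp.two_le h2
  have hX : 0 ≤ z0.im ^ 2 * ‖qs b z0‖ ^ 2 := by positivity
  have h8 : (J : ℝ) / 16 * (z0.im ^ 2 * ‖qs b z0‖ ^ 2) ≤ 2 * ∑ t ∈ S, A t := by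
    rw [← hdisj, Finset.mul_sum]
    refine le_trans (mul_le_mul_of_nonneg_right (hSUMB p J α hp.two_le) hX) ?_
    rw [Finset.sum_mul]
    exact Finset.sum_le_sum (fun j _ => hj j)
  have hpi := Real.pi_pos
  have h9 : ∑ t ∈ S, A t ≤ 200 / Real.pi * nrm N b := by
    have h10 : ∑ t ∈ S, A t = ((∑ t ∈ S, A t) * (Real.pi / 100)) * (100 / Real.pi) := by
      field_simp
    rw [h10]
    calc ((∑ t ∈ S, A t) * (Real.pi / 100)) * (100 / Real.pi) ≤
        (2 * nrm N b) * (100 / Real.pi) := mul_le_mul_of_nonneg_right hAS (by positivity)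
      _ = 200 / Real.pi * nrm N b := by ring
  calc (J : ℝ) * (z0.im ^ 2 * ‖qs b z0‖ ^ 2) =
        16 * ((J : ℝ) / 16 * (z0.im ^ 2 * ‖qs b z0‖ ^ 2)) := by ring
    _ ≤ 16 * (2 * (200 / Real.pi * nrm N b)) := by linarith
    _ = 6400 / Real.pi * nrm N b := by ring


end Pool.Agent.Helper96.MP
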