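import Pool.Agent.Helper96.MP.Defs

/-!
# MP_bde085_nt, module DIMB: dimension bound
-/

set_option autoImplicit false

namespace Pool.Agent.Helper96.MP

open Finset

/-- Bezout form of `Uni` -/
theorem dimb_uni_iff (N : ℕ) (c d : ℤ) :
    Uni N c d ↔ ∃ u v w : ℤ, u * c + v * d + w * (N : ℤ) = 1 := by
  unfold Uni
  constructor
  · intro h
    have h1 := Int.gcd_eq_gcd_ab (Int.gcd c d : ℤ) (N : ℤ)
    rw [h] at h1
    have h2 := Int.gcd_eq_gcd_ab c d
    refine ⟨Int.gcdA c d * Int.gcdA (Int.gcd c d) N, Int.gcdB c d * Int.gcdA (Int.gcd c d) N,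
      Int.gcdB (Int.gcd c d) N, ?_⟩
    push_cast at h1
    linear_combination (-1 : ℤ) * h1 - (Int.gcdA (Int.gcd c d : ℤ) N) * h2
  · rintro ⟨u, v, w, h⟩
    have h1 : ((Int.gcd (Int.gcd c d : ℤ) (N : ℤ) : ℕ) : ℤ) ∣ 1 := by
      have hg1 : ((Int.gcd (Int.gcd c d : ℤ) (N : ℤ) : ℕ) : ℤ) ∣ (Int.gcd c d : ℤ) :=
        Int.gcd_dvd_left _ _
      have hg2 : ((Int.gcd (Int.gcd c d : ℤ) (N : ℤ) : ℕ) : ℤ) ∣ (N : ℤ) := Int.gcd_dvd_right _ _
      rw [← h]
      apply dvd_add (dvd_add _ _) _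
      · exact Dvd.dvd.mul_left (hg1.trans (Int.gcd_dvd_left _ _)) _
      · exact Dvd.dvd.mul_left (hg1.trans (Int.gcd_dvd_right _ _)) _
      · exact Dvd.dvd.mul_left hg2 _
    have h2 := Int.natCast_dvd_natCast.mp (by simpa using h1 :
      ((Int.gcd (Int.gcd c d : ℤ) (N : ℤ) : ℕ) : ℤ) ∣ ((1 : ℕ) : ℤ))
    exact Nat.dvd_one.mp h2

theorem dimb_uni_act (N : ℕ) (a b c d s t : ℤ) (hD : IsCoprime (a * d - b * c) (N : ℤ))
    (h : Uni N s t) : Uni N (s * a + t * c) (s * b + t * d) := by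
  rw [dimb_uni_iff] at h ⊢
  obtain ⟨u, v, w, h⟩ := h
  obtain ⟨r, q, hr⟩ := hD
  refine ⟨r * u * d - r * v * b, - (r * u * c) + r * v * a,
    q * (u * s + v * t + w * N) + r * (a * d - b * c) * w, ?_⟩
  have : (r * u * d - r * v * b) * (s * a + t * c) + (- (r * u * c) + r * v * a) * (s * b + t * d) +
    (q * (u * s + v * t + w * N) + r * (a * d - b * c) * w) * N =
    (r * (a * d - b * c) + q * N) * (u * s + v * t + w * N) := by ring
  rw [this, hr, h, one_mul]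

theorem dimb_eqv_act (N : ℕ) (a b c d s t s' t' : ℤ) (h : eqv N s t s' t') :
    eqv N (s * a + t * c) (s * b + t * d) (s' * a + t' * c) (s' * b + t' * d) := by
  obtain ⟨l, hl, h1, h2⟩ := h
  refine ⟨l, hl, ?_, ?_⟩
  · have : s' * a + t' * c - l * (s * a + t * c) = (s' - l * s) * a + (t' - l * t) * c := by ring
    rw [this]
    exact dvd_add (Dvd.dvd.mul_right h1 _) (Dvd.dvd.mul_right h2 _)
  · have : s' * b + t' * d - l * (s * b + t * d) = (s' - l * s) * b + (t' - l * t) * d := by ring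
    rw [this]
    exact dvd_add (Dvd.dvd.mul_right h1 _) (Dvd.dvd.mul_right h2 _)

open Classical in
/-- action of a matrix on the projective line -/
noncomputable def dimb_act {N : ℕ} (m : ℕ × ℕ × ℕ × ℕ) (x : PN N) : PN N :=
  if h : Uni N ((Quotient.out x).1.1 * m.1 + (Quotient.out x).1.2 * m.2.2.1)
      ((Quotient.out x).1.1 * m.2.1 + (Quotient.out x).1.2 * m.2.2.2) then
    Quotient.mk (sPN N) ⟨((Quotient.out x).1.1 * m.1 + (Quotient.out x).1.2 * m.2.2.1,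
      (Quotient.out x).1.1 * m.2.1 + (Quotient.out x).1.2 * m.2.2.2), h⟩
  else x

/-- the determinant of a quadruple -/
def dimb_cop (N : ℕ) (m : ℕ × ℕ × ℕ × ℕ) : Prop :=
  IsCoprime ((m.1 : ℤ) * m.2.2.2 - m.2.1 * m.2.2.1) (N : ℤ)

theorem dimb_act_out {N : ℕ} (m : ℕ × ℕ × ℕ × ℕ) (hm : dimb_cop N m) (x : PN N) :
    ∃ h : Uni N ((Quotient.out x).1.1 * m.1 + (Quotient.out x).1.2 * m.2.2.1)
      ((Quotient.out x).1.1 * m.2.1 + (Quotient.out x).1.2 * m.2.2.2), dimb_act m x =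
    Quotient.mk (sPN N) ⟨((Quotient.out x).1.1 * m.1 + (Quotient.out x).1.2 * m.2.2.1,
      (Quotient.out x).1.1 * m.2.1 + (Quotient.out x).1.2 * m.2.2.2), h⟩ := by
  have h := dimb_uni_act N m.1 m.2.1 m.2.2.1 m.2.2.2 _ _ hm (Quotient.out x).2
  exact ⟨h, dif_pos h⟩

/-- evaluation at the image -/
theorem dimb_ev {N : ℕ} (m : ℕ × ℕ × ℕ × ℕ) (hm : dimb_cop N m) (v : PN N → ℝ) (x : PN N) :
    ev v ((Quotient.out x).1.1 * m.1 + (Quotient.out x).1.2 * m.2.2.1)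
      ((Quotient.out x).1.1 * m.2.1 + (Quotient.out x).1.2 * m.2.2.2) = v (dimb_act m x) := by
  obtain ⟨h, he⟩ := dimb_act_out m hm x
  unfold ev
  rw [dif_pos h, he]

theorem dimb_ev_out {N : ℕ} (v : PN N → ℝ) (x : PN N) :
    ev v (Quotient.out x).1.1 (Quotient.out x).1.2 = v x := by
  unfold ev
  rw [dif_pos (Quotient.out x).2]
  congr 1
  exact Quotient.out_eq x

/-- coincidences -/
theorem dimb_coinc {N : ℕ} (m m' : ℕ × ℕ × ℕ × ℕ) (hm : dimb_cop N m) (hm' : dimb_cop N m')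
    (x : PN N) (hx : dimb_act m x = dimb_act m' x) :
    ∃ (s t : ℤ) (h : Uni N s t), x = Quotient.mk (sPN N) ⟨(s, t), h⟩ ∧
      eqv N (s * m.1 + t * m.2.2.1) (s * m.2.1 + t * m.2.2.2)
        (s * m'.1 + t * m'.2.2.1) (s * m'.2.1 + t * m'.2.2.2) := by
  obtain ⟨h, he⟩ := dimb_act_out m hm x
  obtain ⟨h', he'⟩ := dimb_act_out m' hm' x
  rw [he, he'] at hx
  refine ⟨_, _, (Quotient.out x).2, ?_, Quotient.exact hx⟩
  exact (Quotient.out_eq x).symm

/-- expanding the square -/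
theorem dimb_sq {P τ : Type} [Fintype P] [DecidableEq P] (T : Finset τ) (w : τ → ℝ)
    (f : τ → P → P) (x : P) :
    ∑ y, (∑ t ∈ T, w t * (if f t x = y then (1 : ℝ) else 0)) ^ 2 =
      ∑ t ∈ T, ∑ t' ∈ T, w t * w t' * (if f t x = f t' x then (1 : ℝ) else 0) := by
  have h1 : ∀ y, (∑ t ∈ T, w t * (if f t x = y then (1 : ℝ) else 0)) ^ 2 =
      ∑ t ∈ T, ∑ t' ∈ T, w t * w t' * ((if f t x = y then (1 : ℝ) else 0) *
        (if f t' x = y then (1 : ℝ) else 0)) := by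
    intro y
    rw [sq, Finset.sum_mul_sum]
    apply Finset.sum_congr rfl
    intro t _
    apply Finset.sum_congr rfl
    intro t' _
    ring
  simp only [h1]
  rw [Finset.sum_comm]
  apply Finset.sum_congr rfl
  intro t _
  rw [Finset.sum_comm]
  apply Finset.sum_congr rfl
  intro t' _
  rw [← Finset.mul_sum]
  congr 1
  simp only [ite_mul, one_mul, zero_mul]
  rw [Finset.sum_ite_eq]
  simp [eq_comm]

/-- members of `Sn` -/
theorem dimb_mem {n : ℕ} {m : ℕ × ℕ × ℕ × ℕ} (h : m ∈ Sn n) :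
    m.1 ≤ n ∧ m.2.1 ≤ n ∧ m.2.2.1 ≤ n ∧ m.2.2.2 ≤ n ∧ m.2.1 < m.1 ∧ m.2.2.1 < m.2.2.2 ∧
      m.1 * m.2.2.2 = n + m.2.1 * m.2.2.1 := by
  unfold Sn at h
  simp only [Finset.mem_filter, Finset.mem_product, Finset.mem_range] at h
  obtain ⟨⟨h1, h2, h3, h4⟩, h5, h6, h7⟩ := h
  exact ⟨by omega, by omega, by omega, by omega, h5, h6, h7⟩

theorem dimb_one {a b c d : ℕ} (hab : b < a) (hcd : c < d) (h : a * d = 1 + b * c) :
    a = 1 ∧ b = 0 ∧ c = 0 ∧ d = 1 := by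
  obtain ⟨u, rfl⟩ := Nat.exists_eq_add_of_lt hab
  obtain ⟨v, rfl⟩ := Nat.exists_eq_add_of_lt hcd
  have h1 : (b + u + 1) * (c + v + 1) = b * c + (b * v + b + u * c + u * v + u + c + v + 1) := by
    ring
  rw [h1] at h
  have h2 : b * v + b + u * c + u * v + u + c + v = 0 := by omega
  have hb : b = 0 := by
    by_contra hb
    have : 0 < b * v + b + u * c + u * v + u + c + v := by positivity
    omega
  have hc : c = 0 := by
    by_contra hc
    have : 0 < b * v + b + u * c + u * v + u + c + v := by positivity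
    omega
  have hu : u = 0 := by
    by_contra hu
    have : 0 < b * v + b + u * c + u * v + u + c + v := by positivity
    omega
  have hv : v = 0 := by
    by_contra hv
    have : 0 < b * v + b + u * c + u * v + u + c + v := by positivity
    omega
  subst hb hc hu hv
  simp

theorem dimb_div {l l' x y : ℕ} (hl : l.Prime) (hl' : l'.Prime) (hne : l ≠ l')
    (h : l' * x = l * y) : ∃ z, x = l * z ∧ y = l' * z := by
  have hc : Nat.Coprime l l' := (Nat.coprime_primes hl hl').mpr hne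
  have h1 : l ∣ x := hc.dvd_of_dvd_mul_left (Dvd.intro y h.symm)
  obtain ⟨z, rfl⟩ := h1
  refine ⟨z, rfl, ?_⟩
  have h2 : l * (l' * z) = l * y := by rw [← h]; ring
  exact (Nat.eq_of_mul_eq_mul_left hl.pos h2).symm

/-- `n` is `l` or `l ^ 2` -/
theorem dimb_prop {l l' n n' : ℕ} (hl : l.Prime) (hl' : l'.Prime) (hn : n = l ∨ n = l ^ 2)
    (hn' : n' = l' ∨ n' = l' ^ 2) (hll : l = l' → n = n')
    {m m' : ℕ × ℕ × ℕ × ℕ} (hm : m ∈ Sn n) (hm' : m' ∈ Sn n')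
    (h1 : (m.2.1 : ℤ) * m'.1 - m.1 * m'.2.1 = 0) (h2 : (m.2.2.1 : ℤ) * m'.2.2.2 - m.2.2.2 * m'.2.2.1 = 0)
    (h3 : (m.1 : ℤ) * m'.2.2.2 - m.2.1 * m'.2.2.1 = m.2.2.2 * m'.1 - m.2.2.1 * m'.2.1) :
    (l = l' ∧ m = m') ∨ (n = l ^ 2 ∧ n' = l' ^ 2 ∧ m = (l, 0, 0, l) ∧ m' = (l', 0, 0, l')) := by
  obtain ⟨a, b, c, d⟩ := m
  obtain ⟨a', b', c', d'⟩ := m'
  obtain ⟨-, -, -, -, hab, hcd, hdet⟩ := dimb_mem hm
  obtain ⟨-, -, -, -, hab', hcd', hdet'⟩ := dimb_mem hm'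
  simp only at h1 h2 h3 hab hcd hdet hab' hcd' hdet'
  have hn0 : 0 < n := by
    rcases hn with rfl | rfl
    · exact hl.pos
    · exact pow_pos hl.pos 2
  have hn0' : 0 < n' := by
    rcases hn' with rfl | rfl
    · exact hl'.pos
    · exact pow_pos hl'.pos 2
  have hdz : (a : ℤ) * d = n + b * c := by exact_mod_cast hdet
  have hdz' : (a' : ℤ) * d' = n' + b' * c' := by exact_mod_cast hdet'
  obtain ⟨z, hz⟩ : ∃ z : ℤ, z = (a : ℤ) * d' - b * c' := ⟨_, rfl⟩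
  have ea : (n' : ℤ) * a = z * a' := by
    rw [hz]; linear_combination (-(a : ℤ)) * hdz' + (c' : ℤ) * h1
  have eb : (n' : ℤ) * b = z * b' := by
    rw [hz]; linear_combination (-(b : ℤ)) * hdz' + (d' : ℤ) * h1
  have ec : (n' : ℤ) * c = z * c' := by
    rw [hz]; linear_combination (-(c : ℤ)) * hdz' + (a' : ℤ) * h2 - (c' : ℤ) * h3
  have ed : (n' : ℤ) * d = z * d' := by
    rw [hz]; linear_combination (-(d : ℤ)) * hdz' + (b' : ℤ) * h2 - (d' : ℤ) * h3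
  have hz0 : 0 < z := by
    have ha' : (0 : ℤ) < a' := by exact_mod_cast (by omega : 0 < a')
    have ha : (0 : ℤ) < a := by exact_mod_cast (by omega : 0 < a)
    have hn'z : (0 : ℤ) < n' := by exact_mod_cast hn0'
    have : 0 < z * a' := by rw [← ea]; positivity
    exact (mul_pos_iff_of_pos_right ha').mp this
  have hz2 : z * z = (n : ℤ) * n' := by
    have hn'z : (n' : ℤ) ≠ 0 := by exact_mod_cast hn0'.ne'
    have : (n' : ℤ) * (z * z) = n' * (n * n') := by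
      have e1 : (n' : ℤ) * n' * n = (n' * a) * (n' * d) - (n' * b) * (n' * c) := by
        linear_combination (-(n' : ℤ) * n') * hdz
      have e2 : (n' * a) * (n' * d) - (n' * b) * (n' * c) = z * z * (n' : ℤ) := by
        rw [ea, eb, ec, ed]
        linear_combination (z * z) * hdz'
      linear_combination (-1 : ℤ) * (e1.trans e2)
    exact mul_left_cancel₀ hn'z this
  lift z to ℕ using hz0.le with z' hz'
  have hz2' : z' * z' = n * n' := by exact_mod_cast hz2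
  have ea' : n' * a = z' * a' := by exact_mod_cast ea
  have eb' : n' * b = z' * b' := by exact_mod_cast eb
  have ec' : n' * c = z' * c' := by exact_mod_cast ec
  have ed' : n' * d = z' * d' := by exact_mod_cast ed
  by_cases hne : l = l'
  · left
    refine ⟨hne, ?_⟩
    have hnn := hll hne
    rw [hnn] at hz2'
    have hzn : z' = n' := Nat.mul_self_inj.mp hz2'
    rw [hzn] at ea' eb' ec' ed'
    have a1 := Nat.eq_of_mul_eq_mul_left hn0' ea'
    have a2 := Nat.eq_of_mul_eq_mul_left hn0' eb'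
    have a3 := Nat.eq_of_mul_eq_mul_left hn0' ec'
    have a4 := Nat.eq_of_mul_eq_mul_left hn0' ed'
    rw [a1, a2, a3, a4]
  · right
    have hcop : Nat.Coprime l l' := (Nat.coprime_primes hl hl').mpr hne
    -- `n = l` is impossible
    have hA : ∀ {p q k : ℕ}, p.Prime → Nat.Coprime p q → ∀ e : ℕ, k * k = p * q ^ e → False := by
      intro p q k hp hpq e he
      have h1 : p ∣ k := by
        have : p ∣ k * k := Dvd.intro _ he.symm
        rcases (Nat.Prime.dvd_mul hp).mp this with h | h <;> exact h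
      obtain ⟨k', rfl⟩ := h1
      have h2 : p * (p * (k' * k')) = p * q ^ e := by rw [← he]; ring
      have h3 := Nat.eq_of_mul_eq_mul_left hp.pos h2
      have h4 : p ∣ q ^ e := Dvd.intro _ h3
      have h5 : Nat.Coprime p (q ^ e) := Nat.Coprime.pow_right e hpq
      have h6 := Nat.Coprime.eq_one_of_dvd h5 h4
      exact hp.one_lt.ne' h6
    rcases hn with rfl | rfl
    · exfalso
      rcases hn' with rfl | rfl
      · exact hA hl hcop 1 (by rw [hz2', pow_one])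
      · exact hA hl hcop 2 hz2'
    · rcases hn' with rfl | rfl
      · exfalso
        exact hA hl' hcop.symm 2 (by rw [hz2', mul_comm])
      · have hzz : z' = l * l' := by
          have : z' * z' = (l * l') * (l * l') := by rw [hz2']; ring
          exact Nat.mul_self_inj.mp this
        have hcan : ∀ {x x' : ℕ}, l' ^ 2 * x = z' * x' → l' * x = l * x' := by
          intro x x' h
          rw [hzz] at h
          have : l' * (l' * x) = l' * (l * x') := by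
            calc l' * (l' * x) = l' ^ 2 * x := by ring
              _ = l * l' * x' := h
              _ = l' * (l * x') := by ring
          exact Nat.eq_of_mul_eq_mul_left hl'.pos this
        obtain ⟨a1, rfl, rfl⟩ := dimb_div hl hl' hne (hcan ea')
        obtain ⟨b1, rfl, rfl⟩ := dimb_div hl hl' hne (hcan eb')
        obtain ⟨c1, rfl, rfl⟩ := dimb_div hl hl' hne (hcan ec')
        obtain ⟨d1, rfl, rfl⟩ := dimb_div hl hl' hne (hcan ed')
        have hab1 : b1 < a1 := Nat.lt_of_mul_lt_mul_left hab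
        have hcd1 : c1 < d1 := Nat.lt_of_mul_lt_mul_left hcd
        have hdet1 : a1 * d1 = 1 + b1 * c1 := by
          have : l ^ 2 * (a1 * d1) = l ^ 2 * (1 + b1 * c1) := by
            calc l ^ 2 * (a1 * d1) = l * a1 * (l * d1) := by ring
              _ = l ^ 2 + l * b1 * (l * c1) := hdet
              _ = l ^ 2 * (1 + b1 * c1) := by ring
          exact Nat.eq_of_mul_eq_mul_left hn0 this
        obtain ⟨rfl, rfl, rfl, rfl⟩ := dimb_one hab1 hcd1 hdet1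
        refine ⟨rfl, rfl, ?_, ?_⟩ <;> simp

/-- the Hilbert-Schmidt computation -/
theorem dimb_gen (hHS : ST_HS) {P τ : Type} [Fintype P] [DecidableEq P] [DecidableEq τ]
    (T : Finset τ) (w : τ → ℝ) (f : τ → P → P) (r : τ → ℝ) (B : ℝ)
    (hB : ∀ t ∈ T, ∀ t' ∈ T, ((Finset.univ.filter (fun x => f t x = f t' x)).card : ℝ) ≤
      (Fintype.card P : ℝ) * (if t = t' then 1 else 0) + (Fintype.card P : ℝ) * (r t * r t') + B)
    (E : Submodule ℝ (P → ℝ)) (L : ℝ)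
    (hE : ∀ v ∈ E, ∀ x, ∑ t ∈ T, w t * v (f t x) = L * v x) :
    L ^ 2 * (Module.finrank ℝ E : ℝ) ≤ (Fintype.card P : ℝ) * ∑ t ∈ T, w t ^ 2 +
      (Fintype.card P : ℝ) * (∑ t ∈ T, |w t| * r t) ^ 2 + B * (∑ t ∈ T, |w t|) ^ 2 := by
  have h1 := hHS P (fun x y => ∑ t ∈ T, w t * (if f t x = y then (1 : ℝ) else 0)) L E (by
    intro v hv x
    rw [← hE v hv x]
    simp only [Finset.sum_mul]
    rw [Finset.sum_comm]
    apply Finset.sum_congr rfl
    intro t _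
    simp [mul_assoc])
  refine h1.trans ?_
  have h2 : ∑ x, ∑ y, (∑ t ∈ T, w t * (if f t x = y then (1 : ℝ) else 0)) ^ 2 =
      ∑ t ∈ T, ∑ t' ∈ T, w t * w t' *
        ((Finset.univ.filter (fun x => f t x = f t' x)).card : ℝ) := by
    simp only [dimb_sq]
    rw [Finset.sum_comm]
    apply Finset.sum_congr rfl
    intro t _
    rw [Finset.sum_comm]
    apply Finset.sum_congr rfl
    intro t' _
    rw [← Finset.mul_sum]
    simp
  rw [h2]
  have h3 : ∑ t ∈ T, ∑ t' ∈ T, w t * w t' *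
        ((Finset.univ.filter (fun x => f t x = f t' x)).card : ℝ) ≤
      ∑ t ∈ T, ∑ t' ∈ T, |w t| * |w t'| *
        ((Fintype.card P : ℝ) * (if t = t' then 1 else 0) + (Fintype.card P : ℝ) * (r t * r t') +
          B) := by
    apply Finset.sum_le_sum
    intro t ht
    apply Finset.sum_le_sum
    intro t' ht'
    calc w t * w t' * ((Finset.univ.filter (fun x => f t x = f t' x)).card : ℝ)
        ≤ |w t * w t'| * ((Finset.univ.filter (fun x => f t x = f t' x)).card : ℝ) :=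
          mul_le_mul_of_nonneg_right (le_abs_self _) (Nat.cast_nonneg _)
      _ ≤ _ := by
          rw [abs_mul]
          exact mul_le_mul_of_nonneg_left (hB t ht t' ht') (by positivity)
  refine h3.trans (le_of_eq ?_)
  have h4 : ∀ t t', |w t| * |w t'| *
        ((Fintype.card P : ℝ) * (if t = t' then 1 else 0) + (Fintype.card P : ℝ) * (r t * r t') +
          B) = (Fintype.card P : ℝ) * (|w t| * |w t'| * (if t = t' then 1 else 0)) +
          (Fintype.card P : ℝ) * ((|w t| * r t) * (|w t'| * r t')) + B * (|w t| * |w t'|) := by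
    intro t t'
    ring
  simp only [h4, Finset.sum_add_distrib, ← Finset.mul_sum]
  congr 1
  · congr 1
    · congr 1
      apply Finset.sum_congr rfl
      intro t ht
      simp only [mul_ite, mul_one, mul_zero]
      rw [Finset.sum_ite_eq]
      rw [if_pos ht, ← sq, sq_abs]
    · congr 1
      rw [sq, Finset.sum_mul_sum]
      simp only [← Finset.mul_sum]
  · congr 1
    rw [sq, Finset.sum_mul_sum]
    simp only [← Finset.mul_sum]

/-- the number of coincidences -/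
theorem dimb_card (hFIX : ST_FIX) {N A : ℕ} [Fintype (PN N)] [DecidableEq (PN N)] (hN : 1 ≤ N)
    (m m' : ℕ × ℕ × ℕ × ℕ) (hm : dimb_cop N m) (hm' : dimb_cop N m')
    (hA : ∀ x ∈ [m.1, m.2.1, m.2.2.1, m.2.2.2], ∀ y ∈ [m'.1, m'.2.1, m'.2.2.1, m'.2.2.2],
      x * y ≤ A)
    (hs : ¬ ((m.2.1 : ℤ) * m'.1 - m.1 * m'.2.1 = 0 ∧
      (m.2.2.1 : ℤ) * m'.2.2.2 - m.2.2.2 * m'.2.2.1 = 0 ∧
      (m.1 : ℤ) * m'.2.2.2 - m.2.1 * m'.2.2.1 = m.2.2.2 * m'.1 - m.2.2.1 * m'.2.1)) :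
    ((Finset.univ.filter (fun x : PN N => dimb_act m x = dimb_act m' x)).card : ℝ) ≤
      2 * A * (N.divisors.card : ℝ) ^ 2 * Real.sqrt N := by
  have hab : ∀ x ∈ [m.1, m.2.1, m.2.2.1, m.2.2.2], ∀ y ∈ [m'.1, m'.2.1, m'.2.2.1, m'.2.2.2],
      ∀ x1 ∈ [m.1, m.2.1, m.2.2.1, m.2.2.2], ∀ y1 ∈ [m'.1, m'.2.1, m'.2.2.1, m'.2.2.2],
      |(x : ℤ) * y - x1 * y1| ≤ A := by
    intro x hx y hy x1 hx1 y1 hy1
    have h1 : (x : ℤ) * y ≤ A := by exact_mod_cast hA x hx y hy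
    have h2 : (x1 : ℤ) * y1 ≤ A := by exact_mod_cast hA x1 hx1 y1 hy1
    have h3 : (0 : ℤ) ≤ (x : ℤ) * y := by positivity
    have h4 : (0 : ℤ) ≤ (x1 : ℤ) * y1 := by positivity
    rw [abs_le]
    constructor <;> linarith
  have key := hFIX N A m.1 m.2.1 m.2.2.1 m.2.2.2 m'.1 m'.2.1 m'.2.2.1 m'.2.2.2 hN hm hm'
    (hab _ (by simp) _ (by simp) _ (by simp) _ (by simp))
    (hab _ (by simp) _ (by simp) _ (by simp) _ (by simp))
    (hab _ (by simp) _ (by simp) _ (by simp) _ (by simp))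
    (hab _ (by simp) _ (by simp) _ (by simp) _ (by simp)) hs
  refine le_trans ?_ key
  rw [Nat.cast_le, ← Fintype.card_subtype, ← Nat.card_eq_fintype_card]
  refine Nat.card_le_card_of_injective
    (fun x => ⟨x.1, dimb_coinc m m' hm hm' x.1 x.2⟩) ?_
  intro x y hxy
  have := congrArg Subtype.val hxy
  exact Subtype.ext this

/-- the index used at the prime `l` -/
def dimb_n (a : ℕ → ℤ) (l : ℕ) : ℕ := if (l : ℤ) ≤ 4 * a l ^ 2 then l else l ^ 2

/-- the corresponding eigenvalue -/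
noncomputable def dimb_al (a : ℕ → ℤ) (l : ℕ) : ℝ :=
  if (l : ℤ) ≤ 4 * a l ^ 2 then (a l : ℝ) else (a l : ℝ) ^ 2 - l

theorem dimb_n_or (a : ℕ → ℤ) (l : ℕ) : dimb_n a l = l ∨ dimb_n a l = l ^ 2 := by
  unfold dimb_n
  split_ifs <;> simp

theorem dimb_al_le (a : ℕ → ℤ) (l : ℕ) (h : |a l| ≤ l + 1) : |dimb_al a l| ≤ l + 1 := by
  unfold dimb_al
  split_ifs with h1
  · have : ((|a l| : ℤ) : ℝ) ≤ (((l : ℤ) + 1 : ℤ) : ℝ) := by exact_mod_cast h
    push_cast at this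
    exact this
  · push Not at h1
    have h2 : 4 * (a l : ℝ) ^ 2 < l := by exact_mod_cast h1
    have h3 : (0 : ℝ) ≤ (a l : ℝ) ^ 2 := sq_nonneg _
    rw [abs_le]
    constructor <;> linarith

theorem dimb_al_sq (a : ℕ → ℤ) (l : ℕ) (hl : 2 ≤ l) (h : dimb_n a l = l ^ 2) :
    |dimb_al a l| ≤ l := by
  unfold dimb_n at h
  unfold dimb_al
  split_ifs at h with h1
  · exfalso
    nlinarith
  · rw [if_neg h1]
    push Not at h1
    have h2 : 4 * (a l : ℝ) ^ 2 < l := by exact_mod_cast h1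
    have h3 : (0 : ℝ) ≤ (a l : ℝ) ^ 2 := sq_nonneg _
    rw [abs_le]
    constructor <;> linarith

theorem dimb_two (x : ℝ) : x ≤ (2 : ℝ) ^ x := by
  rcases le_total 1 x with h | h
  · have := one_add_mul_self_le_rpow_one_add (s := 1) (by norm_num) h
    norm_num at this
    linarith
  · rcases le_total 0 x with h0 | h0
    · have := Real.one_le_rpow (x := 2) (by norm_num) h0
      linarith
    · have := Real.rpow_pos_of_pos (by norm_num : (0 : ℝ) < 2) x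
      linarith

/-- lower bound of a summand of `L` -/
theorem dimb_term (a : ℕ → ℤ) (l : ℕ) (hl : 2 ≤ l) {C : ℝ} (hC : 0 < C)
    (hS : ∀ n : ℕ, 1 ≤ n → n ≤ (Sn n).card ∧ ((Sn n).card : ℝ) ≤ C * (n : ℝ) ^ (9 / 8 : ℝ)) :
    (4 * C)⁻¹ * (l : ℝ) ^ (-(1 / 4) : ℝ) ≤ dimb_al a l ^ 2 / ((Sn (dimb_n a l)).card : ℝ) := by
  have hl0 : (0 : ℝ) < l := by exact_mod_cast (by omega : 0 < l)
  have hl1 : (1 : ℝ) ≤ l := by exact_mod_cast (by omega : 1 ≤ l)
  unfold dimb_al dimb_n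
  split_ifs with h1
  · have h2 : (l : ℝ) ≤ 4 * (a l : ℝ) ^ 2 := by exact_mod_cast h1
    obtain ⟨h3, h4⟩ := hS l (by omega)
    have h3' : (l : ℝ) ≤ (Sn l).card := by exact_mod_cast h3
    have hpos : (0 : ℝ) < (Sn l).card := by linarith
    rw [le_div_iff₀ hpos]
    have h5 : (l : ℝ) ^ (-(1 / 4) : ℝ) * (l : ℝ) ^ (9 / 8 : ℝ) ≤ l := by
      rw [← Real.rpow_add hl0]
      calc (l : ℝ) ^ (-(1 / 4) + 9 / 8 : ℝ) ≤ (l : ℝ) ^ (1 : ℝ) :=
            Real.rpow_le_rpow_of_exponent_le hl1 (by norm_num)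
        _ = l := Real.rpow_one _
    have h6 : 0 < (l : ℝ) ^ (-(1 / 4) : ℝ) := Real.rpow_pos_of_pos hl0 _
    calc (4 * C)⁻¹ * (l : ℝ) ^ (-(1 / 4) : ℝ) * ((Sn l).card : ℝ)
        ≤ (4 * C)⁻¹ * (l : ℝ) ^ (-(1 / 4) : ℝ) * (C * (l : ℝ) ^ (9 / 8 : ℝ)) := by
          apply mul_le_mul_of_nonneg_left h4
          positivity
      _ = (1 / 4) * ((l : ℝ) ^ (-(1 / 4) : ℝ) * (l : ℝ) ^ (9 / 8 : ℝ)) := by
          field_simp
      _ ≤ (1 / 4) * l := by
          apply mul_le_mul_of_nonneg_left h5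
          norm_num
      _ ≤ (a l : ℝ) ^ 2 := by linarith
  · push Not at h1
    have h2 : 4 * (a l : ℝ) ^ 2 < l := by exact_mod_cast h1
    obtain ⟨h3, h4⟩ := hS (l ^ 2) (by nlinarith)
    have h3' : (l : ℝ) ^ 2 ≤ (Sn (l ^ 2)).card := by exact_mod_cast h3
    have hpos : (0 : ℝ) < (Sn (l ^ 2)).card := by nlinarith
    rw [le_div_iff₀ hpos]
    have h5 : (l : ℝ) ^ (-(1 / 4) : ℝ) * (((l ^ 2 : ℕ) : ℝ)) ^ (9 / 8 : ℝ) = (l : ℝ) ^ 2 := by
      push_cast
      rw [← Real.rpow_natCast (l : ℝ) 2, ← Real.rpow_mul hl0.le, ← Real.rpow_add hl0]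
      norm_num
    calc (4 * C)⁻¹ * (l : ℝ) ^ (-(1 / 4) : ℝ) * ((Sn (l ^ 2)).card : ℝ)
        ≤ (4 * C)⁻¹ * (l : ℝ) ^ (-(1 / 4) : ℝ) * (C * ((l ^ 2 : ℕ) : ℝ) ^ (9 / 8 : ℝ)) := by
          apply mul_le_mul_of_nonneg_left h4
          have : 0 < (l : ℝ) ^ (-(1 / 4) : ℝ) := Real.rpow_pos_of_pos hl0 _
          positivity
      _ = (1 / 4) * ((l : ℝ) ^ (-(1 / 4) : ℝ) * ((l ^ 2 : ℕ) : ℝ) ^ (9 / 8 : ℝ)) := by
          field_simp
      _ = (1 / 4) * (l : ℝ) ^ 2 := by rw [h5]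
      _ ≤ ((a l : ℝ) ^ 2 - l) ^ 2 := by
          have h0 : (0 : ℝ) ≤ (a l : ℝ) ^ 2 := sq_nonneg _
          have h7 : (3 / 4) * (l : ℝ) ≤ l - (a l : ℝ) ^ 2 := by linarith
          nlinarith

/-- the sum over `S_n` of the absolute weights at scalar matrices -/
theorem dimb_scal (a : ℕ → ℤ) (l : ℕ) (hl : 2 ≤ l)
    (hS : ∀ n : ℕ, 1 ≤ n → n ≤ (Sn n).card) :
    ∑ m ∈ Sn (dimb_n a l), |dimb_al a l / ((Sn (dimb_n a l)).card : ℝ)| *
      (if dimb_n a l = l ^ 2 ∧ m = (l, 0, 0, l) then (1 : ℝ) else 0) ≤ (l : ℝ)⁻¹ := by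
  have hl0 : (0 : ℝ) < l := by exact_mod_cast (by omega : 0 < l)
  by_cases hn : dimb_n a l = l ^ 2
  · have h1 := dimb_al_sq a l hl hn
    have h2 : (l : ℝ) ^ 2 ≤ ((Sn (dimb_n a l)).card : ℝ) := by
      rw [hn]
      exact_mod_cast hS (l ^ 2) (by nlinarith)
    have hpos : (0 : ℝ) < ((Sn (dimb_n a l)).card : ℝ) := by nlinarith
    have h3 : |dimb_al a l / ((Sn (dimb_n a l)).card : ℝ)| ≤ (l : ℝ)⁻¹ := by
      rw [abs_div, abs_of_pos hpos, div_le_iff₀ hpos]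
      calc |dimb_al a l| ≤ l := h1
        _ = (l : ℝ)⁻¹ * (l : ℝ) ^ 2 := by field_simp
        _ ≤ (l : ℝ)⁻¹ * ((Sn (dimb_n a l)).card : ℝ) :=
          mul_le_mul_of_nonneg_left h2 (by positivity)
    have h4 : ∀ m ∈ Sn (dimb_n a l), |dimb_al a l / ((Sn (dimb_n a l)).card : ℝ)| *
      (if dimb_n a l = l ^ 2 ∧ m = (l, 0, 0, l) then (1 : ℝ) else 0) ≤
      (if m = (l, 0, 0, l) then (l : ℝ)⁻¹ else 0) := by
      intro m _
      by_cases hm : m = (l, 0, 0, l)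
      · rw [if_pos ⟨hn, hm⟩, if_pos hm, mul_one]
        exact h3
      · rw [if_neg (fun h => hm h.2), if_neg hm, mul_zero]
    refine (Finset.sum_le_sum h4).trans ?_
    rw [Finset.sum_ite_eq']
    split_ifs
    · exact le_refl _
    · positivity
  · have h4 : ∀ m ∈ Sn (dimb_n a l), |dimb_al a l / ((Sn (dimb_n a l)).card : ℝ)| *
      (if dimb_n a l = l ^ 2 ∧ m = (l, 0, 0, l) then (1 : ℝ) else 0) = 0 := by
      intro m _
      rw [if_neg (fun h => hn h.1), mul_zero]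
    rw [Finset.sum_eq_zero h4]
    positivity

/-- the primes in use -/
def dimb_I (N j : ℕ) : Finset ℕ := (Nat.primesBelow (2 ^ j + 1)).filter (fun l => ¬ l ∣ N)

theorem dimb_I_mem {N j l : ℕ} (h : l ∈ dimb_I N j) : l.Prime ∧ ¬ l ∣ N ∧ l ≤ 2 ^ j := by
  unfold dimb_I at h
  rw [Finset.mem_filter, Nat.mem_primesBelow] at h
  exact ⟨h.1.2, h.2, by omega⟩

theorem dimb_I_sub (N j : ℕ) : dimb_I N j ⊆ Finset.Icc 1 (2 ^ j) := by
  intro l hl
  obtain ⟨h1, -, h3⟩ := dimb_I_mem hl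
  rw [Finset.mem_Icc]
  exact ⟨h1.one_lt.le, h3⟩

theorem dimb_I_card (N j : ℕ) (hN : 1 ≤ N) :
    (Nat.primeCounting (2 ^ j) : ℝ) ≤ (dimb_I N j).card + N.primeFactors.card := by
  have h1 : Nat.primesBelow (2 ^ j + 1) ⊆ dimb_I N j ∪ N.primeFactors := by
    intro l hl
    by_cases h : l ∣ N
    · apply Finset.mem_union_right
      exact Nat.mem_primeFactors.mpr ⟨(Nat.mem_primesBelow.mp hl).2, h, by omega⟩
    · apply Finset.mem_union_left
      unfold dimb_I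
      exact Finset.mem_filter.mpr ⟨hl, h⟩
  have h2 := (Finset.card_le_card h1).trans (Finset.card_union_le _ _)
  rw [Nat.primesBelow_card_eq_primeCounting'] at h2
  exact_mod_cast h2

theorem dimb_harm (N j : ℕ) : ∑ l ∈ dimb_I N j, (l : ℝ)⁻¹ ≤ 1 + j := by
  have h1 : ∑ l ∈ dimb_I N j, (l : ℝ)⁻¹ ≤ ∑ l ∈ Finset.Icc (1 : ℕ) (2 ^ j), (l : ℝ)⁻¹ :=
    Finset.sum_le_sum_of_subset_of_nonneg (dimb_I_sub N j) (fun _ _ _ => by positivity)
  have h2 := harmonic_le_one_add_log (2 ^ j)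
  rw [harmonic_eq_sum_Icc] at h2
  push_cast at h2
  rw [Real.log_pow] at h2
  have h3 : (j : ℝ) * Real.log 2 ≤ j * 1 := by
    apply mul_le_mul_of_nonneg_left _ (Nat.cast_nonneg _)
    have := Real.log_two_lt_d9
    linarith
  linarith

theorem dimb_alsum (N j : ℕ) (a : ℕ → ℤ) (ha : ∀ l : ℕ, l.Prime → ¬ l ∣ N → |a l| ≤ l + 1) :
    ∑ l ∈ dimb_I N j, |dimb_al a l| ≤ 2 * 4 ^ j := by
  have h1 : ∀ l ∈ dimb_I N j, |dimb_al a l| ≤ 2 * 2 ^ j := by
    intro l hl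
    obtain ⟨h1, h2, h3⟩ := dimb_I_mem hl
    have h4 := dimb_al_le a l (ha l h1 h2)
    have h5 : (l : ℝ) ≤ 2 ^ j := by exact_mod_cast h3
    have h6 : (1 : ℝ) ≤ 2 ^ j := one_le_pow₀ (by norm_num)
    linarith
  have h2 : ((dimb_I N j).card : ℝ) ≤ 2 ^ j := by
    have := Finset.card_le_card (dimb_I_sub N j)
    rw [Nat.card_Icc] at this
    exact_mod_cast this
  calc ∑ l ∈ dimb_I N j, |dimb_al a l| ≤ (dimb_I N j).card • (2 * 2 ^ j : ℝ) :=
        Finset.sum_le_card_nsmul _ _ _ h1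
    _ = (dimb_I N j).card * (2 * 2 ^ j : ℝ) := by rw [nsmul_eq_mul]
    _ ≤ 2 ^ j * (2 * 2 ^ j : ℝ) := mul_le_mul_of_nonneg_right h2 (by positivity)
    _ = 2 * 4 ^ j := by
      have : (4 : ℝ) ^ j = 2 ^ j * 2 ^ j := by
        rw [← mul_pow]; norm_num
      rw [this]; ring

theorem dimb_cop_of {N n : ℕ} {m : ℕ × ℕ × ℕ × ℕ} (hm : m ∈ Sn n) (hc : Nat.Coprime n N) :
    dimb_cop N m := by
  obtain ⟨-, -, -, -, -, -, h⟩ := dimb_mem hm
  unfold dimb_cop
  have h1 : (m.1 : ℤ) * m.2.2.2 - m.2.1 * m.2.2.1 = n := by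
    have : (m.1 : ℤ) * m.2.2.2 = n + m.2.1 * m.2.2.1 := by exact_mod_cast h
    linarith
  rw [h1]
  exact Nat.isCoprime_iff_coprime.mpr hc

/-- the inequality between dimension and sums -/
theorem dimb_ineq (hHS : ST_HS) (hFIX : ST_FIX)
    (hS : ∀ n : ℕ, 1 ≤ n → n ≤ (Sn n).card) {N j : ℕ} [Fintype (PN N)] (hN : 1 ≤ N)
    (a : ℕ → ℤ) (ha : ∀ l : ℕ, l.Prime → ¬ l ∣ N → |a l| ≤ l + 1)
    (E : Submodule ℝ (PN N → ℝ))
    (hE : ∀ v ∈ E, ∀ l : ℕ, l.Prime → ¬ l ∣ N → l ≤ 2 ^ j →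
      HRow N l (a l) v ∧ HRow N (l ^ 2) ((a l : ℝ) ^ 2 - l) v) :
    (∑ l ∈ dimb_I N j, dimb_al a l ^ 2 / ((Sn (dimb_n a l)).card : ℝ)) ^ 2 *
      (Module.finrank ℝ E : ℝ) ≤ (Fintype.card (PN N) : ℝ) *
        (∑ l ∈ dimb_I N j, dimb_al a l ^ 2 / ((Sn (dimb_n a l)).card : ℝ)) +
      (Fintype.card (PN N) : ℝ) * (1 + j) ^ 2 +
      (2 * 16 ^ j * (N.divisors.card : ℝ) ^ 2 * Real.sqrt N) * (2 * 4 ^ j) ^ 2 := by
  classical
  have hpr : ∀ l ∈ dimb_I N j, 2 ≤ l := fun l hl => (dimb_I_mem hl).1.two_le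
  have hn1 : ∀ l ∈ dimb_I N j, 1 ≤ dimb_n a l := by
    intro l hl
    have := hpr l hl
    rcases dimb_n_or a l with h | h
    · rw [h]; omega
    · rw [h]; nlinarith
  have hpos : ∀ l ∈ dimb_I N j, (0 : ℝ) < (Sn (dimb_n a l)).card := by
    intro l hl
    have h1 := hn1 l hl
    have h2 := hS _ h1
    exact_mod_cast (by omega : 0 < (Sn (dimb_n a l)).card)
  have hcop : ∀ l ∈ dimb_I N j, Nat.Coprime (dimb_n a l) N := by
    intro l hl
    obtain ⟨h1, h2, -⟩ := dimb_I_mem hl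
    have h3 : Nat.Coprime l N := (Nat.Prime.coprime_iff_not_dvd h1).mpr h2
    rcases dimb_n_or a l with h | h
    · rw [h]; exact h3
    · rw [h]; exact Nat.Coprime.pow_left 2 h3
  -- the indexing set
  let T : Finset (Σ _ : ℕ, ℕ × ℕ × ℕ × ℕ) := (dimb_I N j).sigma (fun l => Sn (dimb_n a l))
  let w : (Σ _ : ℕ, ℕ × ℕ × ℕ × ℕ) → ℝ := fun t =>
    dimb_al a t.1 / ((Sn (dimb_n a t.1)).card : ℝ)
  let f : (Σ _ : ℕ, ℕ × ℕ × ℕ × ℕ) → PN N → PN N := fun t => dimb_act t.2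
  let r : (Σ _ : ℕ, ℕ × ℕ × ℕ × ℕ) → ℝ := fun t =>
    if dimb_n a t.1 = t.1 ^ 2 ∧ t.2 = (t.1, 0, 0, t.1) then (1 : ℝ) else 0
  have hr0 : ∀ t, 0 ≤ r t := by
    intro t
    simp only [r]
    split_ifs <;> norm_num
  have hmem : ∀ t ∈ T, t.1 ∈ dimb_I N j ∧ t.2 ∈ Sn (dimb_n a t.1) := by
    intro t ht
    exact Finset.mem_sigma.mp ht
  have hB0 : (0 : ℝ) ≤ 2 * 16 ^ j * (N.divisors.card : ℝ) ^ 2 * Real.sqrt N := by positivity
  have key := dimb_gen hHS T w f r (2 * 16 ^ j * (N.divisors.card : ℝ) ^ 2 * Real.sqrt N) (by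
    intro t ht t' ht'
    obtain ⟨h1, h2⟩ := hmem t ht
    obtain ⟨h1', h2'⟩ := hmem t' ht'
    obtain ⟨hp, hd, hle⟩ := dimb_I_mem h1
    obtain ⟨hp', hd', hle'⟩ := dimb_I_mem h1'
    have hcard : ((Finset.univ.filter (fun x => f t x = f t' x)).card : ℝ) ≤
        (Fintype.card (PN N) : ℝ) := by
      exact_mod_cast Finset.card_le_univ _
    have hP0 : (0 : ℝ) ≤ (Fintype.card (PN N) : ℝ) := Nat.cast_nonneg _
    have hrr := mul_nonneg (hr0 t) (hr0 t')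
    have hite : (0 : ℝ) ≤ (if t = t' then (1 : ℝ) else 0) := by split_ifs <;> norm_num
    by_cases hs : ((t.2.2.1 : ℤ) * t'.2.1 - t.2.1 * t'.2.2.1 = 0 ∧
      (t.2.2.2.1 : ℤ) * t'.2.2.2.2 - t.2.2.2.2 * t'.2.2.2.1 = 0 ∧
      (t.2.1 : ℤ) * t'.2.2.2.2 - t.2.2.1 * t'.2.2.2.1 =
        t.2.2.2.2 * t'.2.1 - t.2.2.2.1 * t'.2.2.1)
    · rcases dimb_prop hp hp' (dimb_n_or a t.1) (dimb_n_or a t'.1) (fun h => by rw [h]) h2 h2'
        hs.1 hs.2.1 hs.2.2 with h | h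
      · have htt : t = t' := by
          obtain ⟨l, m⟩ := t
          obtain ⟨l', m'⟩ := t'
          simp only at h
          rw [h.1, h.2]
        rw [if_pos htt]
        have := mul_nonneg hP0 hrr
        linarith
      · have e1 : r t = 1 := if_pos ⟨h.1, h.2.2.1⟩
        have e2 : r t' = 1 := if_pos ⟨h.2.1, h.2.2.2⟩
        rw [e1, e2]
        have := mul_nonneg hP0 hite
        linarith
    · have hb : ∀ x ∈ [t.2.1, t.2.2.1, t.2.2.2.1, t.2.2.2.2],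
          ∀ y ∈ [t'.2.1, t'.2.2.1, t'.2.2.2.1, t'.2.2.2.2], x * y ≤ 16 ^ j := by
        have hn : ∀ l : ℕ, 1 ≤ l → l ≤ 2 ^ j → dimb_n a l ≤ 4 ^ j := by
          intro l hl0 hl
          have h4 : 4 ^ j = 2 ^ j * 2 ^ j := by rw [← mul_pow]; norm_num
          have h5 : l ^ 2 ≤ 4 ^ j := by
            rw [h4, sq]
            exact Nat.mul_le_mul hl hl
          rcases dimb_n_or a l with h | h
          · rw [h]; nlinarith
          · rw [h]; exact h5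
        have hx : ∀ x ∈ [t.2.1, t.2.2.1, t.2.2.2.1, t.2.2.2.2], x ≤ 4 ^ j := by
          obtain ⟨b1, b2, b3, b4, -, -, -⟩ := dimb_mem h2
          have b5 := hn t.1 hp.one_lt.le hle
          intro x hx
          simp only [List.mem_cons, List.not_mem_nil, or_false] at hx
          rcases hx with rfl | rfl | rfl | rfl <;> omega
        have hy : ∀ x ∈ [t'.2.1, t'.2.2.1, t'.2.2.2.1, t'.2.2.2.2], x ≤ 4 ^ j := by
          obtain ⟨b1, b2, b3, b4, -, -, -⟩ := dimb_mem h2'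
          have b5 := hn t'.1 hp'.one_lt.le hle'
          intro x hx
          simp only [List.mem_cons, List.not_mem_nil, or_false] at hx
          rcases hx with rfl | rfl | rfl | rfl <;> omega
        intro x hx' y hy'
        have h16 : 16 ^ j = 4 ^ j * 4 ^ j := by rw [← mul_pow]; norm_num
        rw [h16]
        exact Nat.mul_le_mul (hx x hx') (hy y hy')
      have h5 := dimb_card hFIX hN t.2 t'.2 (dimb_cop_of h2 (hcop _ h1))
        (dimb_cop_of h2' (hcop _ h1')) hb hs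
      push_cast at h5
      have h6 := mul_nonneg hP0 hite
      have h7 := mul_nonneg hP0 hrr
      have h8 : ((Finset.univ.filter (fun x => f t x = f t' x)).card : ℝ) ≤
        2 * 16 ^ j * (N.divisors.card : ℝ) ^ 2 * Real.sqrt N := h5
      linarith)
    E (∑ l ∈ dimb_I N j, dimb_al a l ^ 2 / ((Sn (dimb_n a l)).card : ℝ)) (by
    intro v hv x
    rw [Finset.sum_sigma, Finset.sum_mul]
    apply Finset.sum_congr rfl
    intro l hl
    obtain ⟨hp, hd, hle⟩ := dimb_I_mem hl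
    have h1 : HRow N (dimb_n a l) (dimb_al a l) v := by
      obtain ⟨e1, e2⟩ := hE v hv l hp hd hle
      unfold dimb_n dimb_al
      split_ifs
      · exact e1
      · exact e2
    have h2 := h1 _ _ (Quotient.out x).2
    rw [dimb_ev_out] at h2
    have h3 : ∑ m ∈ Sn (dimb_n a l), v (dimb_act m x) = dimb_al a l * v x := by
      rw [← h2]
      apply Finset.sum_congr rfl
      intro m hm
      exact (dimb_ev m (dimb_cop_of hm (hcop l hl)) v x).symm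
    have hp0 := hpos l hl
    simp only [w, f]
    rw [← Finset.mul_sum, h3]
    field_simp)
  refine key.trans ?_
  have s1 : ∑ t ∈ T, w t ^ 2 = ∑ l ∈ dimb_I N j, dimb_al a l ^ 2 / ((Sn (dimb_n a l)).card : ℝ) := by
    rw [Finset.sum_sigma]
    apply Finset.sum_congr rfl
    intro l hl
    have hp0 := hpos l hl
    simp only [w, Finset.sum_const, nsmul_eq_mul]
    field_simp
  have s2 : ∑ t ∈ T, |w t| * r t ≤ 1 + j := by
    rw [Finset.sum_sigma]
    refine le_trans (Finset.sum_le_sum ?_) (dimb_harm N j)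
    intro l hl
    exact dimb_scal a l (hpr l hl) hS
  have s3 : ∑ t ∈ T, |w t| ≤ 2 * 4 ^ j := by
    rw [Finset.sum_sigma]
    refine le_trans (le_of_eq ?_) (dimb_alsum N j a ha)
    apply Finset.sum_congr rfl
    intro l hl
    have hp0 := hpos l hl
    simp only [w, Finset.sum_const, nsmul_eq_mul]
    rw [abs_div, abs_of_pos hp0]
    field_simp
  have s2' : 0 ≤ ∑ t ∈ T, |w t| * r t :=
    Finset.sum_nonneg (fun t _ => mul_nonneg (abs_nonneg _) (hr0 t))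
  have s3' : 0 ≤ ∑ t ∈ T, |w t| := Finset.sum_nonneg (fun t _ => abs_nonneg _)
  rw [s1]
  gcongr

/-- the error term is at most `8 C ^ 2 N` -/
theorem dimb_err {N j : ℕ} {C : ℝ} (hC : 0 < C) (hN : 1 ≤ N) (hj : (4 : ℝ) ^ (20 * j) ≤ N)
    (hD : (N.divisors.card : ℝ) ≤ C * (N : ℝ) ^ (1 / 16 : ℝ)) :
    (2 * 16 ^ j * (N.divisors.card : ℝ) ^ 2 * Real.sqrt N) * (2 * 4 ^ j) ^ 2 ≤
      8 * C ^ 2 * N := by
  have hN0 : (0 : ℝ) < N := by exact_mod_cast hN
  have hN1 : (1 : ℝ) ≤ N := by exact_mod_cast hN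
  have h1 : ((4 : ℝ) ^ (4 * j)) ≤ (N : ℝ) ^ (1 / 5 : ℝ) := by
    have h2 : ((4 : ℝ) ^ (4 * j)) = (((4 : ℝ) ^ (4 * j)) ^ 5) ^ (((5 : ℕ) : ℝ)⁻¹) :=
      (Real.pow_rpow_inv_natCast (by positivity) (by norm_num)).symm
    rw [h2, ← pow_mul]
    have h3 : 4 * j * 5 = 20 * j := by ring
    rw [h3]
    have h4 : (((5 : ℕ) : ℝ)⁻¹) = (1 / 5 : ℝ) := by norm_num
    rw [h4]
    exact Real.rpow_le_rpow (by positivity) hj (by norm_num)
  have h5 : (N.divisors.card : ℝ) ^ 2 ≤ C ^ 2 * (N : ℝ) ^ (1 / 8 : ℝ) := by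
    calc (N.divisors.card : ℝ) ^ 2 ≤ (C * (N : ℝ) ^ (1 / 16 : ℝ)) ^ 2 :=
          pow_le_pow_left₀ (Nat.cast_nonneg _) hD 2
      _ = C ^ 2 * (N : ℝ) ^ (1 / 8 : ℝ) := by
          rw [mul_pow, ← Real.rpow_natCast ((N : ℝ) ^ (1 / 16 : ℝ)) 2, ← Real.rpow_mul hN0.le]
          norm_num
  have h6 : (16 : ℝ) ^ j * (4 ^ j) ^ 2 = 4 ^ (4 * j) := by
    have : (16 : ℝ) ^ j = (4 ^ j) ^ 2 := by
      rw [← pow_mul, mul_comm, pow_mul]; norm_num
    rw [this, ← pow_mul, ← pow_add]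
    congr 1
    ring
  calc (2 * 16 ^ j * (N.divisors.card : ℝ) ^ 2 * Real.sqrt N) * (2 * 4 ^ j) ^ 2
      = 8 * ((16 : ℝ) ^ j * (4 ^ j) ^ 2) * (N.divisors.card : ℝ) ^ 2 * Real.sqrt N := by ring
    _ = 8 * 4 ^ (4 * j) * (N.divisors.card : ℝ) ^ 2 * Real.sqrt N := by rw [h6]
    _ ≤ 8 * (N : ℝ) ^ (1 / 5 : ℝ) * (C ^ 2 * (N : ℝ) ^ (1 / 8 : ℝ)) * Real.sqrt N := by gcongr
    _ = 8 * C ^ 2 * ((N : ℝ) ^ (1 / 5 : ℝ) * (N : ℝ) ^ (1 / 8 : ℝ) * (N : ℝ) ^ (1 / 2 : ℝ)) := by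
        rw [Real.sqrt_eq_rpow]; ring
    _ = 8 * C ^ 2 * (N : ℝ) ^ (1 / 5 + 1 / 8 + 1 / 2 : ℝ) := by
        rw [Real.rpow_add hN0, Real.rpow_add hN0]
    _ ≤ 8 * C ^ 2 * (N : ℝ) ^ (1 : ℝ) := by
        apply mul_le_mul_of_nonneg_left _ (by positivity)
        exact Real.rpow_le_rpow_of_exponent_le hN1 (by norm_num)
    _ = 8 * C ^ 2 * N := by rw [Real.rpow_one]

/-- the final real inequality -/
theorem dimb_real {κ D P L d t j : ℝ} (hκ : 0 < κ) (hD : 0 ≤ D) (hP : 0 ≤ P) (ht : 1 ≤ t)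
    (hj : 1 ≤ j) (hjt : j ≤ 4 * t) (hL : κ * t ^ 2 ≤ L)
    (h : L ^ 2 * d ≤ P * L + P * (1 + j) ^ 2 + D * P) :
    d ≤ (κ⁻¹ + (64 + D) / κ ^ 2) * P * t⁻¹ := by
  have ht0 : 0 < t := by linarith
  have hL0 : 0 < L := lt_of_lt_of_le (by positivity) hL
  have h1 : (1 + j) ^ 2 ≤ 64 * t ^ 2 := by nlinarith
  have h2 : d ≤ P / L + P * (64 * t ^ 2) / L ^ 2 + D * P / L ^ 2 := by
    have h3 : L ^ 2 * d ≤ P * L + P * (64 * t ^ 2) + D * P := by
      have := mul_le_mul_of_nonneg_left h1 hP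
      linarith
    have h4 : P / L + P * (64 * t ^ 2) / L ^ 2 + D * P / L ^ 2 =
        (P * L + P * (64 * t ^ 2) + D * P) / L ^ 2 := by
      field_simp
    rw [h4, le_div_iff₀ (by positivity)]
    linarith
  have h5 : P / L ≤ P / (κ * t) := by
    apply div_le_div_of_nonneg_left hP (by positivity)
    nlinarith [mul_pos hκ ht0]
  have hL2 : (κ * t ^ 2) ^ 2 ≤ L ^ 2 := pow_le_pow_left₀ (by positivity) hL 2
  have h6 : P * (64 * t ^ 2) / L ^ 2 ≤ P * 64 / (κ ^ 2 * t) := by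
    calc P * (64 * t ^ 2) / L ^ 2 ≤ P * (64 * t ^ 2) / (κ * t ^ 2) ^ 2 :=
          div_le_div_of_nonneg_left (by positivity) (by positivity) hL2
      _ = P * 64 / (κ ^ 2 * t ^ 2) := by field_simp
      _ ≤ P * 64 / (κ ^ 2 * t) := by
          apply div_le_div_of_nonneg_left (by positivity) (by positivity)
          apply mul_le_mul_of_nonneg_left _ (by positivity)
          nlinarith
  have h7 : D * P / L ^ 2 ≤ D * P / (κ ^ 2 * t) := by
    calc D * P / L ^ 2 ≤ D * P / (κ * t ^ 2) ^ 2 :=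
          div_le_div_of_nonneg_left (by positivity) (by positivity) hL2
      _ ≤ D * P / (κ ^ 2 * t) := by
          apply div_le_div_of_nonneg_left (by positivity) (by positivity)
          have : (κ * t ^ 2) ^ 2 = κ ^ 2 * t ^ 4 := by ring
          rw [this]
          apply mul_le_mul_of_nonneg_left _ (by positivity)
          have := pow_le_pow_right₀ ht (show 1 ≤ 4 by norm_num)
          simpa using this
  refine h2.trans ((add_le_add (add_le_add h5 h6) h7).trans (le_of_eq ?_))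
  field_simp
  ring

/-- module DIMB -/
theorem st_DIMB (hHS : ST_HS) (hFIX : ST_FIX) (hSC : ST_SCARD) (hCH : ST_CHEB)
    (hDV : ST_DIVB) (hPN : ST_PNF) : ST_DIMB := by
  obtain ⟨CS, hCS, hS⟩ := hSC
  obtain ⟨c, hc, hch⟩ := hCH
  obtain ⟨CD, hCD, hdv⟩ := hDV
  obtain ⟨κ, hκ⟩ : ∃ κ : ℝ, κ = c / (32 * CS) := ⟨_, rfl⟩
  have hκ0 : 0 < κ := by rw [hκ]; positivity
  refine ⟨64 / c ^ 2 + (κ⁻¹ + (64 + 8 * CD ^ 2) / κ ^ 2), by positivity, ?_⟩
  intro N j a E hN hj h4 hω ha hE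
  obtain ⟨hfin, hNP, -⟩ := hPN N hN
  have := Fintype.ofFinite (PN N)
  have hS' : ∀ n : ℕ, 1 ≤ n → n ≤ (Sn n).card := fun n hn => (hS n hn).1
  have key := dimb_ineq hHS hFIX hS' (j := j) hN a ha E hE
  have herr := dimb_err hCD hN h4 (hdv N hN)
  rw [Nat.card_eq_fintype_card] at hNP ⊢
  have hNP' : (N : ℝ) ≤ (Fintype.card (PN N) : ℝ) := by exact_mod_cast hNP
  obtain ⟨t, ht⟩ : ∃ t : ℝ, t = (2 : ℝ) ^ ((j : ℝ) / 4) := ⟨_, rfl⟩
  have hj1 : (1 : ℝ) ≤ j := by exact_mod_cast hj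
  have ht1 : 1 ≤ t := by
    rw [ht]
    exact Real.one_le_rpow (by norm_num) (by positivity)
  have ht0 : 0 < t := by linarith
  have ht4 : t ^ 4 = 2 ^ j := by
    rw [ht, ← Real.rpow_natCast ((2 : ℝ) ^ ((j : ℝ) / 4)) 4, ← Real.rpow_mul (by norm_num)]
    rw [← Real.rpow_natCast (2 : ℝ) j]
    congr 1
    push_cast
    ring
  have hjt : (j : ℝ) ≤ 4 * t := by
    have := dimb_two ((j : ℝ) / 4)
    rw [← ht] at this
    linarith
  have htinv : (2 : ℝ) ^ (-(j : ℝ) / 4) = t⁻¹ := by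
    rw [ht, ← Real.rpow_neg (by norm_num)]
    congr 1
    ring
  -- number of prime factors
  have hωt : (N.primeFactors.card : ℝ) ≤ c * t ^ 2 / 8 := by
    have h1 : 64 / c ^ 2 * ((N.primeFactors.card : ℝ) + 1) ^ 2 ≤ t ^ 4 := by
      rw [ht4]
      refine le_trans (mul_le_mul_of_nonneg_right ?_ (by positivity)) hω
      have : 0 ≤ κ⁻¹ + (64 + 8 * CD ^ 2) / κ ^ 2 := by positivity
      linarith
    have h2 : (8 * ((N.primeFactors.card : ℝ) + 1)) ^ 2 ≤ (c * t ^ 2) ^ 2 := by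
      have h3 : (8 * ((N.primeFactors.card : ℝ) + 1)) ^ 2 =
          c ^ 2 * (64 / c ^ 2 * ((N.primeFactors.card : ℝ) + 1) ^ 2) := by
        field_simp
        ring
      have h4 : (c * t ^ 2) ^ 2 = c ^ 2 * t ^ 4 := by ring
      rw [h3, h4]
      exact mul_le_mul_of_nonneg_left h1 (by positivity)
    have h5 := abs_le_of_sq_le_sq h2 (by positivity)
    have h6 := (le_abs_self _).trans h5
    linarith
  have hI : c * t ^ 2 / 8 ≤ ((dimb_I N j).card : ℝ) ∧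
      c * t ^ 3 / 8 ≤ ((dimb_I N j).card : ℝ) := by
    have h1 := hch j hj
    have h2 := dimb_I_card N j hN
    have h3 : c * t ^ 3 / 4 ≤ c * 2 ^ j / (j : ℝ) := by
      rw [← ht4, div_le_div_iff₀ (by norm_num) (by linarith)]
      have : c * t ^ 3 * j ≤ c * t ^ 3 * (4 * t) :=
        mul_le_mul_of_nonneg_left hjt (by positivity)
      calc c * t ^ 3 * j ≤ c * t ^ 3 * (4 * t) := this
        _ = c * t ^ 4 * 4 := by ring
    have h4 : c * t ^ 2 ≤ c * t ^ 3 := by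
      apply mul_le_mul_of_nonneg_left _ hc.le
      exact pow_le_pow_right₀ ht1 (by norm_num)
    constructor <;> linarith
  have hL : κ * t ^ 2 ≤ ∑ l ∈ dimb_I N j, dimb_al a l ^ 2 / ((Sn (dimb_n a l)).card : ℝ) := by
    have h1 : ∀ l ∈ dimb_I N j, (4 * CS)⁻¹ * t⁻¹ ≤
        dimb_al a l ^ 2 / ((Sn (dimb_n a l)).card : ℝ) := by
      intro l hl
      obtain ⟨hp, -, hle⟩ := dimb_I_mem hl
      refine le_trans (mul_le_mul_of_nonneg_left ?_ (by positivity))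
        (dimb_term a l hp.two_le hCS hS)
      rw [← htinv]
      have hl0 : (0 : ℝ) < l := by exact_mod_cast hp.pos
      have hle' : (l : ℝ) ≤ 2 ^ j := by exact_mod_cast hle
      calc (2 : ℝ) ^ (-(j : ℝ) / 4) = ((2 : ℝ) ^ j) ^ (-(1 / 4) : ℝ) := by
            rw [← Real.rpow_natCast (2 : ℝ) j, ← Real.rpow_mul (by norm_num)]
            congr 1
            ring
        _ ≤ (l : ℝ) ^ (-(1 / 4) : ℝ) :=
            Real.rpow_le_rpow_of_nonpos hl0 hle' (by norm_num)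
    have h2 := Finset.card_nsmul_le_sum _ _ _ h1
    rw [nsmul_eq_mul] at h2
    refine le_trans ?_ h2
    calc κ * t ^ 2 = (c * t ^ 3 / 8) * ((4 * CS)⁻¹ * t⁻¹) := by
          rw [hκ]
          field_simp
          norm_num
      _ ≤ ((dimb_I N j).card : ℝ) * ((4 * CS)⁻¹ * t⁻¹) :=
          mul_le_mul_of_nonneg_right hI.2 (by positivity)
  have hfinal := dimb_real (D := 8 * CD ^ 2) (P := (Fintype.card (PN N) : ℝ)) hκ0 (by positivity)
    (Nat.cast_nonneg _) ht1 hj1 hjt hL (d := (Module.finrank ℝ E : ℝ)) (by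
      have h8 : 8 * CD ^ 2 * (N : ℝ) ≤ 8 * CD ^ 2 * (Fintype.card (PN N) : ℝ) :=
        mul_le_mul_of_nonneg_left hNP' (by positivity)
      linarith)
  rw [htinv]
  refine hfinal.trans ?_
  have h9 : 0 ≤ 64 / c ^ 2 * (Fintype.card (PN N) : ℝ) * t⁻¹ := by positivity
  calc (κ⁻¹ + (64 + 8 * CD ^ 2) / κ ^ 2) * (Fintype.card (PN N) : ℝ) * t⁻¹
      ≤ 64 / c ^ 2 * (Fintype.card (PN N) : ℝ) * t⁻¹ +
        (κ⁻¹ + (64 + 8 * CD ^ 2) / κ ^ 2) * (Fintype.card (PN N) : ℝ) * t⁻¹ := by linarith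
    _ = (64 / c ^ 2 + (κ⁻¹ + (64 + 8 * CD ^ 2) / κ ^ 2)) * (Fintype.card (PN N) : ℝ) * t⁻¹ := by
        ring


end Pool.Agent.Helper96.MP
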